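import Mathlib

set_option autoImplicit false
open Polynomial Filter

/-!
# Borcea's inequality: definitions, minimisers, power means
-/

namespace Pool.Agent.V1148.Bor

/-- The distance from `z` to the nearest critical point of `F`. -/
noncomputable def near (F : ℂ[X]) (z : ℂ) : ℝ :=
  sInf {r : ℝ | ∃ w ∈ (derivative F).roots, r = ‖z - w‖}

/-- `h(F, F')`: the largest distance from a zero of `F` to the nearest critical point. -/
noncomputable def hdist (F : ℂ[X]) : ℝ := sSup {d : ℝ | ∃ z ∈ F.roots, d = near F z}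

/-- The power mean of order `p` of the distances of the zeros of `F` (with multiplicity) to `c`. -/
noncomputable def pmean (p : ℝ) (F : ℂ[X]) (c : ℂ) : ℝ :=
  ((1 / (F.natDegree : ℝ)) * (F.roots.map (fun z => ‖z - c‖ ^ p)).sum) ^ (1 / p)

/-- The `p`-variance `σ_p(F)` of the zeros of `F`. -/
noncomputable def sigma (p : ℝ) (F : ℂ[X]) : ℝ := ⨅ c : ℂ, pmean p F c

/-- `F = a (z - c)^n - b`. -/
def IsPure (F : ℂ[X]) : Prop :=
  ∃ a b c : ℂ, a ≠ 0 ∧ F = C a * (X - C c) ^ F.natDegree - C b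

lemma sum_nonneg' (F : ℂ[X]) (p : ℝ) (c : ℂ) :
    0 ≤ (F.roots.map (fun z => ‖z - c‖ ^ p)).sum := by
  apply Multiset.sum_nonneg
  intro x hx
  rw [Multiset.mem_map] at hx
  obtain ⟨z, -, rfl⟩ := hx
  positivity

lemma pmean_nonneg (p : ℝ) (F : ℂ[X]) (c : ℂ) : 0 ≤ pmean p F c := by
  unfold pmean
  have := sum_nonneg' F p c
  positivity

lemma bdd (p : ℝ) (F : ℂ[X]) : BddBelow (Set.range (pmean p F)) :=
  ⟨0, by rintro _ ⟨c, rfl⟩; exact pmean_nonneg p F c⟩

lemma sigma_le (p : ℝ) (F : ℂ[X]) (c : ℂ) : sigma p F ≤ pmean p F c := ciInf_le (bdd p F) c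

lemma exists_min {p : ℝ} (hp : 0 < p) {F : ℂ[X]} (hF : ∃ z, z ∈ F.roots) :
    ∃ c, sigma p F = pmean p F c := by
  obtain ⟨z0, hz0⟩ := hF
  have hcont : Continuous fun c : ℂ => (F.roots.map (fun z => ‖z - c‖ ^ p)).sum := by
    apply continuous_multiset_sum
    intro i _
    exact (continuous_const.sub continuous_id).norm.rpow_const (fun _ => Or.inr hp.le)
  have hlim : Tendsto (fun c : ℂ => (F.roots.map (fun z => ‖z - c‖ ^ p)).sum)
      (cocompact ℂ) atTop := by
    have h1 : Tendsto (fun c : ℂ => ‖z0 - c‖) (cocompact ℂ) atTop := by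
      apply tendsto_atTop_mono (fun c => ?_)
        (tendsto_atTop_add_const_right _ (-‖z0‖) (tendsto_norm_cocompact_atTop (E := ℂ)))
      have := norm_sub_norm_le c z0
      rw [norm_sub_rev] at this
      simpa using this
    apply tendsto_atTop_mono _ ((tendsto_rpow_atTop hp).comp h1)
    intro c
    have h2 : ‖z0 - c‖ ^ p ∈ F.roots.map (fun z => ‖z - c‖ ^ p) :=
      Multiset.mem_map_of_mem _ hz0
    exact Multiset.single_le_sum (fun x hx => by
      rw [Multiset.mem_map] at hx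
      obtain ⟨z, -, rfl⟩ := hx
      positivity) _ h2
  obtain ⟨c, hc⟩ := hcont.exists_forall_le hlim
  refine ⟨c, le_antisymm (sigma_le p F c) (le_ciInf fun c' => ?_)⟩
  unfold pmean
  apply Real.rpow_le_rpow
  · have := sum_nonneg' F p c
    positivity
  · apply mul_le_mul_of_nonneg_left (hc c') (by positivity)
  · positivity

/-- Equality in the power mean inequality. -/
lemma all_eq {n : ℕ} (hn : 0 < n) (t : Fin n → ℝ) (ht : ∀ i, 0 ≤ t i) {p q : ℝ} (hq : 0 < q)
    (hqp : q < p)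
    (h : ((1 / (n : ℝ)) * ∑ i, t i ^ p) ^ (1 / p) ≤ ((1 / (n : ℝ)) * ∑ i, t i ^ q) ^ (1 / q)) :
    ∀ i, t i = ((1 / (n : ℝ)) * ∑ i, t i ^ p) ^ (1 / p) := by
  have hp : 0 < p := hq.trans hqp
  have hn0 : (0:ℝ) < (n : ℝ) := by exact_mod_cast hn
  have hs : 1 < p / q := by rw [lt_div_iff₀ hq]; linarith
  have hsc := strictConvexOn_rpow hs
  have hw : ∑ _i : Fin n, (1 / (n : ℝ)) = 1 := by
    rw [Finset.sum_const, Finset.card_univ, Fintype.card_fin, nsmul_eq_mul]
    field_simp
  have hmem : ∀ i ∈ (Finset.univ : Finset (Fin n)), t i ^ q ∈ Set.Ici (0:ℝ) := fun i _ =>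
    Real.rpow_nonneg (ht i) _
  have hJ := hsc.convexOn.map_sum_le (t := Finset.univ) (w := fun _ => 1 / (n : ℝ))
    (p := fun i => t i ^ q) (fun _ _ => by positivity) hw hmem
  have hE := hsc.map_sum_eq_iff (t := Finset.univ) (w := fun _ => 1 / (n : ℝ))
    (p := fun i => t i ^ q) (fun _ _ => by positivity) hw hmem
  have hpow : ∀ i, (t i ^ q) ^ (p / q) = t i ^ p := fun i => by
    rw [← Real.rpow_mul (ht i), mul_div_cancel₀ _ hq.ne']
  simp only [smul_eq_mul, hpow, ← Finset.mul_sum] at hJ hE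
  set A := (1 / (n : ℝ)) * ∑ i, t i ^ q with hA
  set B := (1 / (n : ℝ)) * ∑ i, t i ^ p with hB
  have hA0 : 0 ≤ A := mul_nonneg (by positivity)
    (Finset.sum_nonneg fun i _ => Real.rpow_nonneg (ht i) _)
  have hB0 : 0 ≤ B := mul_nonneg (by positivity)
    (Finset.sum_nonneg fun i _ => Real.rpow_nonneg (ht i) _)
  have h1 : B ≤ A ^ (p / q) := by
    have := Real.rpow_le_rpow (Real.rpow_nonneg hB0 _) h hp.le
    rwa [← Real.rpow_mul hB0, one_div_mul_cancel hp.ne', Real.rpow_one, ← Real.rpow_mul hA0,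
      one_div_mul_eq_div] at this
  have h2 : A ^ (p / q) = B := le_antisymm hJ h1
  have h3 := hE.1 h2
  intro i
  have h4 : t i ^ q = A := h3 i (Finset.mem_univ i)
  have h5 : t i = A ^ (1 / q) := by
    rw [← h4, ← Real.rpow_mul (ht i), mul_one_div_cancel hq.ne', Real.rpow_one]
  rw [h5, ← h2, ← Real.rpow_mul hA0]
  congr 1
  field_simp

lemma exists_fin {F : ℂ[X]} : ∃ z : Fin F.natDegree → ℂ, F.roots = Finset.univ.val.map z := by
  have hc : F.roots.card = F.natDegree := by
    have := (IsAlgClosed.splits F).natDegree_eq_card_roots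
    exact this.symm
  have hl : F.roots.toList.length = F.natDegree := by rw [Multiset.length_toList, hc]
  refine ⟨fun i => F.roots.toList.get (i.cast hl.symm), ?_⟩
  have h1 : (Finset.univ.val.map fun i : Fin F.natDegree => F.roots.toList.get (i.cast hl.symm)) =
      ((List.ofFn fun i : Fin F.natDegree => F.roots.toList.get (i.cast hl.symm) : List ℂ) :
        Multiset ℂ) := by
    rw [Fin.univ_val_map]
  rw [h1]
  have h2 : (List.ofFn fun i : Fin F.natDegree => F.roots.toList.get (i.cast hl.symm)) =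
      F.roots.toList := by
    apply List.ext_getElem
    · simp [hl]
    · intro i h1 h2
      simp
  rw [h2, Multiset.coe_toList]

/-- If `σ_p ≤ σ_q` in the weak form below then all zeros are on a circle. -/
lemma on_circle {F : ℂ[X]} (hn : 0 < F.natDegree) {p q : ℝ} (hq : 0 < q) (hqp : q < p) (c : ℂ)
    (h : pmean p F c ≤ pmean q F c) : ∀ z ∈ F.roots, ‖z - c‖ = pmean p F c := by
  obtain ⟨z, hz⟩ := exists_fin (F := F)
  have hs : ∀ s : ℝ, (F.roots.map (fun z => ‖z - c‖ ^ s)).sum = ∑ i, ‖z i - c‖ ^ s := by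
    intro s
    rw [hz, Multiset.map_map]
    rfl
  unfold pmean at h ⊢
  rw [hs, hs] at h
  have := all_eq hn (fun i => ‖z i - c‖) (fun i => norm_nonneg _) hq hqp h
  intro w hw
  rw [hz, Multiset.mem_map] at hw
  obtain ⟨i, -, rfl⟩ := hw
  rw [this i, hs]

end Pool.Agent.V1148.Bor
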