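import Pool.Agent.V1148.Bor.A
import Pool.Agent.Results.MP_f0bc87_an.AllNegativeExponents

set_option autoImplicit false
open Polynomial Filter

/-!
# Borcea's inequality: the equality cases follow from the inequality for a smaller exponent
-/

namespace Pool.Agent.V1148.Bor

lemma near_le {F : ℂ[X]} {z w : ℂ} (hw : w ∈ (derivative F).roots) : near F z ≤ ‖z - w‖ :=
  csInf_le ⟨0, by rintro _ ⟨w, -, rfl⟩; exact norm_nonneg _⟩ ⟨w, hw, rfl⟩

lemma hdist_attained {F : ℂ[X]} (hF : ∃ z, z ∈ F.roots) :
    ∃ z ∈ F.roots, hdist F = near F z := by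
  have hfin : {d : ℝ | ∃ z ∈ F.roots, d = near F z}.Finite := by
    apply (F.roots.toFinset.image (near F)).finite_toSet.subset
    rintro _ ⟨z, hz, rfl⟩
    rw [Finset.mem_coe, Finset.mem_image]
    exact ⟨z, Multiset.mem_toFinset.2 hz, rfl⟩
  obtain ⟨z0, hz0⟩ := hF
  have hne : {d : ℝ | ∃ z ∈ F.roots, d = near F z}.Nonempty := ⟨near F z0, z0, hz0, rfl⟩
  exact hne.csSup_mem hfin

lemma exists_root {F : ℂ[X]} (hn : 2 ≤ F.natDegree) : ∃ z, z ∈ F.roots := by
  have h0 : F ≠ 0 := by rintro rfl; simp at hn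
  have hd : F.degree ≠ 0 := by
    rw [degree_eq_natDegree h0]
    exact_mod_cast (by omega : F.natDegree ≠ 0)
  obtain ⟨z, hz⟩ := IsAlgClosed.exists_root F hd
  exact ⟨z, (mem_roots h0).2 hz⟩

lemma der_ne {F : ℂ[X]} (hn : 2 ≤ F.natDegree) : derivative F ≠ 0 := by
  intro h
  have := natDegree_eq_zero_of_derivative_eq_zero h
  omega

/-- Sendov's theorem in a disc of radius `R > 0`, with the case of equality. -/
lemma disc {F : ℂ[X]} (hn : 2 ≤ F.natDegree) {c : ℂ} {R : ℝ} (hR : 0 < R)
    (hc : ∀ z ∈ F.roots, ‖z - c‖ ≤ R) {z : ℂ} (hz : z ∈ F.roots) :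
    near F z < R ∨ (near F z ≤ R ∧ IsPure F) := by
  have h0 : F ≠ 0 := by rintro rfl; simp at hn
  have hd0 := der_ne hn
  by_cases hcrit : z ∈ (derivative F).roots
  · left
    have := near_le (z := z) hcrit
    rw [sub_self, norm_zero] at this
    linarith
  have hRc : (R : ℂ) ≠ 0 := by exact_mod_cast hR.ne'
  set L : ℂ[X] := C (R : ℂ) * X + C c with hL
  have hL1 : L.natDegree = 1 := natDegree_linear hRc
  set G : ℂ[X] := F.comp L with hG
  have hGn : G.natDegree = F.natDegree := by rw [hG, natDegree_comp, hL1, mul_one]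
  have hG0 : G ≠ 0 := by
    intro h
    rw [h, natDegree_zero] at hGn
    omega
  have hev : ∀ w : ℂ, G.eval w = F.eval (R * w + c) := fun w => by
    rw [hG, eval_comp, hL]; simp
  have hdG : derivative G = C (R : ℂ) * (derivative F).comp L := by
    rw [hG, derivative_comp, hL]; simp
  have hdG0 : derivative G ≠ 0 := der_ne (by rw [hGn]; exact hn)
  have hdev : ∀ w : ℂ, (derivative G).eval w = R * (derivative F).eval (R * w + c) := fun w => by
    rw [hdG, eval_mul, eval_C, eval_comp, hL]; simp
  have hroots : ∀ w ∈ G.roots, ‖w‖ ≤ 1 := by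
    intro w hw
    rw [mem_roots hG0, IsRoot.def, hev] at hw
    have h1 := hc _ ((mem_roots h0).2 hw)
    rw [add_sub_cancel_right, norm_mul, Complex.norm_real, Real.norm_of_nonneg hR.le] at h1
    by_contra h2
    push Not at h2
    nlinarith
  set a : ℂ := (z - c) / R with ha
  have hRa : (R : ℂ) * a + c = z := by rw [ha]; field_simp; ring
  have haG : a ∈ G.roots := by
    rw [mem_roots hG0, IsRoot.def, hev, hRa]
    exact (mem_roots h0).1 hz
  have hda : a ∉ (derivative G).roots := by
    intro h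
    rw [mem_roots hdG0, IsRoot.def, hdev, hRa] at h
    rcases mul_eq_zero.1 h with h | h
    · exact hRc h
    · exact hcrit ((mem_roots hd0).2 h)
  have key := (Pool.Agent.Results.MP_f0bc87_an.AllNegativeExponents.result G
    (by rw [hGn]; exact hn) hroots a haG hda).2
  rcases key with ⟨w, hw, hw1⟩ | ⟨ha1, hGe⟩
  · left
    rw [mem_roots hdG0, IsRoot.def, hdev] at hw
    have h1 : (derivative F).eval (R * w + c) = 0 := (mul_eq_zero.1 hw).resolve_left hRc
    have h2 := near_le (z := z) ((mem_roots hd0).2 h1)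
    have h3 : z - (R * w + c) = R * (a - w) := by rw [← hRa]; ring
    rw [h3, norm_mul, Complex.norm_real, Real.norm_of_nonneg hR.le, norm_sub_rev] at h2
    nlinarith
  · right
    have hcomp : F = G.comp (C (R : ℂ)⁻¹ * (X - C c)) := by
      rw [hG, comp_assoc]
      have : L.comp (C (R : ℂ)⁻¹ * (X - C c)) = X := by
        rw [hL]
        simp only [add_comp, mul_comp, C_comp, X_comp]
        rw [← mul_assoc, ← C_mul, mul_inv_cancel₀ hRc, C_1, one_mul, sub_add_cancel]
      rw [this, comp_X]
    have hF : F = C (G.leadingCoeff * (R : ℂ)⁻¹ ^ F.natDegree) * (X - C c) ^ F.natDegree -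
        C (G.leadingCoeff * a ^ F.natDegree) := by
      have h1 : F = (C G.leadingCoeff * (X ^ G.natDegree - C (a ^ G.natDegree))).comp
          (C (R : ℂ)⁻¹ * (X - C c)) := by
        rw [← hGe]
        exact hcomp
      rw [hGn] at h1
      have h2 : (C G.leadingCoeff * (X ^ F.natDegree - C (a ^ F.natDegree))).comp
          (C (R : ℂ)⁻¹ * (X - C c)) =
          C (G.leadingCoeff * (R : ℂ)⁻¹ ^ F.natDegree) * (X - C c) ^ F.natDegree -
            C (G.leadingCoeff * a ^ F.natDegree) := by
        simp only [mul_comp, sub_comp, C_comp, X_comp, pow_comp, mul_pow, C_mul, C_pow]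
        ring
      exact h1.trans h2
    refine ⟨?_, _, _, c, ?_, hF⟩
    · have hw : (derivative F).eval c = 0 := by
        rw [hF]
        simp only [derivative_sub, derivative_C, sub_zero, derivative_mul, zero_mul, zero_add,
          derivative_pow, derivative_X, eval_mul, eval_pow, eval_sub, eval_X, eval_C, sub_self,
          mul_one]
        rw [zero_pow (by omega)]
        simp
      have h2 := near_le (z := z) ((mem_roots hd0).2 hw)
      exact h2.trans (hc z hz)
    · have := leadingCoeff_ne_zero.2 hG0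
      positivity

lemma disc0 {F : ℂ[X]} {c : ℂ} (hn : 2 ≤ F.natDegree) (hc : ∀ z ∈ F.roots, z = c) : IsPure F := by
  have h0 : F ≠ 0 := by rintro rfl; simp at hn
  have h1 := (IsAlgClosed.splits F).eq_prod_roots
  have hcard := (IsAlgClosed.splits F).natDegree_eq_card_roots
  have h2 : F.roots = Multiset.replicate F.natDegree c := by
    rw [hcard]
    exact Multiset.eq_replicate_card.2 hc
  rw [h2, Multiset.map_replicate, Multiset.prod_replicate] at h1
  exact ⟨F.leadingCoeff, 0, c, leadingCoeff_ne_zero.2 h0, by rw [C_0, sub_zero]; exact h1⟩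

lemma pure_of_disc {F : ℂ[X]} (hn : 2 ≤ F.natDegree) {c : ℂ} {R : ℝ} (hR : 0 ≤ R)
    (hc : ∀ z ∈ F.roots, ‖z - c‖ ≤ R) {z : ℂ} (hz : z ∈ F.roots) (hnear : R ≤ near F z) :
    IsPure F := by
  rcases hR.eq_or_lt with h | h
  · apply disc0 hn (c := c)
    intro w hw
    have := hc w hw
    rw [← h] at this
    exact sub_eq_zero.1 (norm_le_zero_iff.1 this)
  · rcases disc hn h hc hz with h1 | h1
    · linarith
    · exact h1.2

/-- **Equality cases.** If `h(F, F') ≤ σ_q(F)` for some `q < p` then `h(F, F') = σ_p(F)` only for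
`F = a (z - c)^n - b`. -/
theorem equality {F : ℂ[X]} (hn : 2 ≤ F.natDegree) {p q : ℝ} (hq : 0 < q) (hqp : q < p)
    (hB : hdist F ≤ sigma q F) (hE : hdist F = sigma p F) : IsPure F := by
  have hroot := exists_root hn
  obtain ⟨c, hc⟩ := exists_min (hq.trans hqp) hroot
  have h1 : pmean p F c ≤ pmean q F c := by
    rw [← hc, ← hE]
    exact hB.trans (sigma_le q F c)
  have hcirc := on_circle (by omega) hq hqp c h1
  obtain ⟨z, hz, hzn⟩ := hdist_attained hroot
  exact pure_of_disc hn (pmean_nonneg _ _ _) (fun z hz => (hcirc z hz).le) hz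
    (by rw [← hzn, hE, hc])

end Pool.Agent.V1148.Bor
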