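import Mathlib

set_option autoImplicit false
open Finset

/-!
# A real inequality
-/

namespace Pool.Agent.V1148.Bor

lemma tangent {x y : ℝ} (hx : 1 < x) (hy : 1 < y) :
    1 / (y ^ 2 - 1) - 2 * y / (y ^ 2 - 1) ^ 2 * (x - y) ≤ 1 / (x ^ 2 - 1) := by
  have ha : 0 < y ^ 2 - 1 := by nlinarith
  have hb : 0 < x ^ 2 - 1 := by nlinarith
  have h1 : 1 / (y ^ 2 - 1) - 2 * y / (y ^ 2 - 1) ^ 2 * (x - y) =
      ((y ^ 2 - 1) - 2 * y * (x - y)) / (y ^ 2 - 1) ^ 2 := by
    field_simp
  rw [h1, div_le_div_iff₀ (by positivity) hb]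
  have h2 : (y ^ 2 - 1 - 2 * y * (x - y)) * (x ^ 2 - 1) =
      (y ^ 2 - 1) ^ 2 - (x - y) ^ 2 * (y ^ 2 + 1 + 2 * y * x) := by ring
  rw [h2]
  have : 0 ≤ (x - y) ^ 2 * (y ^ 2 + 1 + 2 * y * x) := by positivity
  linarith

lemma sum_abs {m : ℕ} (hm : 1 ≤ m) (t : Fin m → ℝ) (ht : ∀ j, 1 < |t j|)
    (hA : ∑ j, 1 / (t j - 1) ≤ 1) (hB : ∑ j, 1 / (-t j - 1) ≤ 1) : (m : ℝ) + 1 ≤ ∑ j, |t j| := by
  rcases Nat.lt_or_ge m 2 with h2 | h2
  · obtain rfl : m = 1 := by omega
    rw [Fin.sum_univ_one] at hA hB ⊢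
    have h := ht 0
    rcases lt_abs.1 h with h0 | h0
    · rw [abs_of_pos (by linarith)]
      rw [div_le_one (by linarith)] at hA
      push_cast
      linarith
    · rw [abs_of_neg (by linarith)]
      rw [div_le_one (by linarith)] at hB
      push_cast
      linarith
  · have hm2 : (2:ℝ) ≤ m := by exact_mod_cast h2
    have hm0 : (0:ℝ) < m := by linarith
    by_contra hlt
    push Not at hlt
    set y : ℝ := 1 + 1 / m with hy
    have hy1 : 1 < y := by rw [hy]; have : 0 < 1 / (m:ℝ) := by positivity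
                           linarith
    have hsum : ∑ j, 1 / (|t j| ^ 2 - 1) ≤ 1 := by
      have h1 : ∀ j, 1 / (|t j| ^ 2 - 1) = (1 / (t j - 1) + 1 / (-t j - 1)) / 2 := by
        intro j
        rw [sq_abs]
        have h3 : t j - 1 ≠ 0 := by
          intro h
          have := ht j
          rw [show t j = 1 by linarith] at this
          simp at this
        have h4 : t j + 1 ≠ 0 := by
          intro h
          have := ht j
          rw [show t j = -1 by linarith] at this
          simp at this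
        have h5 : -t j - 1 ≠ 0 := by
          intro h
          exact h4 (by linarith)
        have h6 : t j ^ 2 - 1 = (t j - 1) * (t j + 1) := by ring
        rw [h6]
        have h7 : -t j - 1 = -(t j + 1) := by ring
        rw [h7]
        field_simp
        ring
      rw [Finset.sum_congr rfl fun j _ => h1 j, ← Finset.sum_div, Finset.sum_add_distrib]
      linarith
    have hge : ∑ j : Fin m, (1 / (y ^ 2 - 1) - 2 * y / (y ^ 2 - 1) ^ 2 * (|t j| - y)) ≤
        ∑ j, 1 / (|t j| ^ 2 - 1) := Finset.sum_le_sum fun j _ => tangent (ht j) hy1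
    rw [Finset.sum_sub_distrib, ← Finset.mul_sum, Finset.sum_sub_distrib, Finset.sum_const,
      Finset.sum_const, Finset.card_univ, Fintype.card_fin, nsmul_eq_mul, nsmul_eq_mul] at hge
    have hmy : (m : ℝ) * y = m + 1 := by rw [hy]; field_simp
    rw [hmy] at hge
    have hpos : 0 < 2 * y / (y ^ 2 - 1) ^ 2 := by
      have : 0 < y ^ 2 - 1 := by nlinarith
      positivity
    have h8 : 0 < 2 * y / (y ^ 2 - 1) ^ 2 * ((m + 1) - ∑ j, |t j|) := by
      apply mul_pos hpos
      linarith
    have h9 : 1 ≤ (m : ℝ) * (1 / (y ^ 2 - 1)) := by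
      have h10 : y ^ 2 - 1 = (2 * m + 1) / m ^ 2 := by rw [hy]; field_simp; ring
      rw [h10, one_div_div, mul_div_assoc', le_div_iff₀ (by positivity)]
      nlinarith [mul_nonneg hm0.le (sub_nonneg.2 hm2), mul_nonneg (mul_nonneg hm0.le hm0.le)
        (sub_nonneg.2 hm2)]
    nlinarith

lemma main_nonneg {m : ℕ} (hm : 1 ≤ m) (t : Fin m → ℝ) (ht : ∀ j, 1 < |t j|)
    (hA : ∑ j, 1 / (t j - 1) ≤ 1) (hB : ∑ j, 1 / (-t j - 1) ≤ 1) (c : ℝ) (hc : 0 ≤ c) :
    (m : ℝ) + 1 ≤ |c| + ∑ j, |t j - c| := by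
  classical
  set P := Finset.univ.filter (fun j => 0 < t j) with hP
  set N := Finset.univ.filter (fun j => ¬ 0 < t j) with hN
  have hcard : (P.card : ℝ) + N.card = m := by
    have := Finset.card_filter_add_card_filter_not (s := (Finset.univ : Finset (Fin m))) (fun j => 0 < t j)
    rw [Finset.card_univ, Fintype.card_fin] at this
    exact_mod_cast this
  have hsplit : ∀ f : Fin m → ℝ, ∑ j, f j = ∑ j ∈ P, f j + ∑ j ∈ N, f j := fun f =>
    (Finset.sum_filter_add_sum_filter_not _ _ _).symm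
  have hPt : ∀ j ∈ P, 1 < t j := by
    intro j hj
    have h1 : 0 < t j := (Finset.mem_filter.1 hj).2
    have := ht j
    rwa [abs_of_pos h1] at this
  have hNt : ∀ j ∈ N, t j < -1 := by
    intro j hj
    have h1 : ¬ 0 < t j := (Finset.mem_filter.1 hj).2
    have := ht j
    rw [abs_of_nonpos (not_lt.1 h1)] at this
    linarith
  rw [abs_of_nonneg hc]
  by_cases hPN : (P.card : ℝ) ≤ 1 + N.card
  · have h1 := sum_abs hm t ht hA hB
    rw [hsplit] at h1 ⊢
    have h2 : ∑ j ∈ P, (|t j| - c) ≤ ∑ j ∈ P, |t j - c| := Finset.sum_le_sum fun j hj => by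
      rw [abs_of_pos (by linarith [hPt j hj])]
      exact le_abs_self _
    have h3 : ∑ j ∈ N, (|t j| + c) ≤ ∑ j ∈ N, |t j - c| := Finset.sum_le_sum fun j hj => by
      rw [abs_of_neg (by linarith [hNt j hj] : t j < 0)]
      have := neg_abs_le (t j - c)
      linarith
    rw [Finset.sum_sub_distrib, Finset.sum_const, nsmul_eq_mul] at h2
    rw [Finset.sum_add_distrib, Finset.sum_const, nsmul_eq_mul] at h3
    nlinarith
  · push Not at hPN
    rw [hsplit] at hA ⊢
    have h1 : ∑ j ∈ N, (-(1 / 2) : ℝ) ≤ ∑ j ∈ N, 1 / (t j - 1) := Finset.sum_le_sum fun j hj => by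
      have := hNt j hj
      rw [le_div_iff_of_neg (by linarith)]
      linarith
    rw [Finset.sum_const, nsmul_eq_mul] at h1
    have h3 : ∑ j ∈ N, (1 + c) ≤ ∑ j ∈ N, |t j - c| := Finset.sum_le_sum fun j hj => by
      have h4 := neg_abs_le (t j - c)
      have := hNt j hj
      linarith
    rw [Finset.sum_const, nsmul_eq_mul] at h3
    have hS : ∑ j ∈ P, 1 / (t j - 1) ≤ 1 + (N.card : ℝ) / 2 := by linarith
    have hN0 : (0:ℝ) ≤ N.card := by positivity
    rcases le_or_gt (c - 1) 1 with hu | hu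
    · have h5 : ∑ j ∈ P, ((2 - (c - 1)) - 1 / (t j - 1)) ≤ ∑ j ∈ P, |t j - c| :=
        Finset.sum_le_sum fun j hj => by
          have h6 := hPt j hj
          have h7 : 2 - 1 / (t j - 1) ≤ t j - 1 := by
            have h8 : 0 < t j - 1 := by linarith
            have h9 : 2 - 1 / (t j - 1) = (2 * (t j - 1) - 1) / (t j - 1) := by
              field_simp
            rw [h9, div_le_iff₀ h8]
            nlinarith [sq_nonneg (t j - 1 - 1)]
          have := le_abs_self (t j - c)
          linarith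
      rw [Finset.sum_sub_distrib, Finset.sum_const, nsmul_eq_mul] at h5
      nlinarith
    · have h5 : ∑ j ∈ P, ((c - 1) - (c - 1) ^ 2 * (1 / (t j - 1))) ≤ ∑ j ∈ P, |t j - c| :=
        Finset.sum_le_sum fun j hj => by
          have h6 := hPt j hj
          have h8 : 0 < t j - 1 := by linarith
          have h9 : (c - 1) - (c - 1) ^ 2 * (1 / (t j - 1)) =
              (c - 1) * (t j - c) / (t j - 1) := by
            field_simp
            ring
          rw [h9, div_le_iff₀ h8]
          rcases le_total (t j) c with h10 | h10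
          · rw [abs_of_nonpos (by linarith)]
            nlinarith
          · rw [abs_of_nonneg (by linarith)]
            nlinarith
      have h0 : 0 ≤ ∑ j ∈ P, |t j - c| := Finset.sum_nonneg fun j _ => abs_nonneg _
      rw [Finset.sum_sub_distrib, ← Finset.mul_sum, Finset.sum_const, nsmul_eq_mul] at h5
      obtain ⟨u, hudef⟩ : ∃ u, u = c - 1 := ⟨_, rfl⟩
      rw [← hudef] at hu h5
      obtain rfl : c = 1 + u := by linarith
      have h11 : u ^ 2 * ∑ j ∈ P, 1 / (t j - 1) ≤ u ^ 2 * (1 + (N.card : ℝ) / 2) :=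
        mul_le_mul_of_nonneg_left hS (sq_nonneg u)
      rcases le_or_gt ((P.card : ℝ) - N.card) (u * (1 + N.card)) with h12 | h12
      · nlinarith
      · have h16 : 0 ≤ (P.card : ℝ) - N.card - u * (1 + N.card) := by linarith
        have h17 : 0 ≤ u - 1 := by linarith
        have h13 : 0 ≤ ((P.card : ℝ) - N.card - u * (1 + N.card)) * (u - 1) := mul_nonneg h16 h17
        have h14 : 0 ≤ u ^ 2 * (N.card : ℝ) := mul_nonneg (sq_nonneg u) hN0
        have h15 : 0 ≤ u * (N.card : ℝ) := mul_nonneg (by linarith) hN0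
        nlinarith

/-- The real inequality. -/
lemma main_real {m : ℕ} (hm : 1 ≤ m) (t : Fin m → ℝ) (ht : ∀ j, 1 < |t j|)
    (hA : ∑ j, 1 / (t j - 1) ≤ 1) (hB : ∑ j, 1 / (-t j - 1) ≤ 1) (c : ℝ) :
    (m : ℝ) + 1 ≤ |c| + ∑ j, |t j - c| := by
  rcases le_total 0 c with hc | hc
  · exact main_nonneg hm t ht hA hB c hc
  · have h := main_nonneg hm (fun j => -t j) (fun j => by rw [abs_neg]; exact ht j) hB
      (by simpa using hA) (-c) (by linarith)
    rw [abs_neg] at h
    have h1 : ∀ j, |-t j - -c| = |t j - c| := fun j => by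
      rw [show -t j - -c = -(t j - c) by ring, abs_neg]
    simp only [h1] at h
    exact h

end Pool.Agent.V1148.Bor
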