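import Pool.Agent.V1148.Bor.B
import Pool.Agent.V1148.Bor.C

set_option autoImplicit false
open Polynomial Filter

/-!
# Borcea's inequality for collinear zeros
-/

namespace Pool.Agent.V1148.Bor

lemma exists_fin' (s : Multiset ℂ) : ∃ y : Fin s.card → ℂ, s = Finset.univ.val.map y := by
  have hl : s.toList.length = s.card := Multiset.length_toList s
  refine ⟨fun i => s.toList.get (i.cast hl.symm), ?_⟩
  have h1 : (Finset.univ.val.map fun i : Fin s.card => s.toList.get (i.cast hl.symm)) =
      ((List.ofFn fun i : Fin s.card => s.toList.get (i.cast hl.symm) : List ℂ) :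
        Multiset ℂ) := by
    rw [Fin.univ_val_map]
  rw [h1]
  have h2 : (List.ofFn fun i : Fin s.card => s.toList.get (i.cast hl.symm)) = s.toList := by
    apply List.ext_getElem
    · simp
    · intro i h1 h2
      simp
  rw [h2, Multiset.coe_toList]

/-- The real polynomial with the zeros `0` and `t j`. -/
noncomputable def rp {m : ℕ} (t : Fin m → ℝ) : ℝ[X] := X * ∏ j, (X - C (t j))

section
variable {F : ℂ[X]} {m : ℕ} {z u : ℂ} {t : Fin m → ℝ}

lemma comp_eq (hroots : F.roots = z ::ₘ Finset.univ.val.map fun j => z + (t j : ℂ) * u) :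
    F.comp (C u * X + C z) = C (F.leadingCoeff * u ^ (m + 1)) * (rp t).map (algebraMap ℝ ℂ) := by
  have h1 := (IsAlgClosed.splits F).eq_prod_roots
  rw [hroots, Multiset.map_cons, Multiset.prod_cons, Multiset.map_map] at h1
  have h2 : (Finset.univ.val.map ((fun a : ℂ => X - C a) ∘ fun j => z + (t j : ℂ) * u)).prod =
      ∏ j, (X - C (z + (t j : ℂ) * u)) := rfl
  rw [h2] at h1
  have h3 : F.comp (C u * X + C z) = (C F.leadingCoeff * ((X - C z) *
      ∏ j, (X - C (z + (t j : ℂ) * u)))).comp (C u * X + C z) := by rw [← h1]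
  rw [h3, rp]
  simp only [mul_comp, C_comp, sub_comp, X_comp, prod_comp, Polynomial.map_mul, map_X,
    Polynomial.map_prod, Polynomial.map_sub, map_C]
  have h4 : ∀ j, (C u * X + C z - C (z + (t j : ℂ) * u) : ℂ[X]) =
      C u * (X - C ((algebraMap ℝ ℂ) (t j))) := by
    intro j
    rw [C_add, C_mul]
    change _ = C u * (X - C ((t j : ℂ)))
    ring
  rw [Finset.prod_congr rfl fun j _ => h4 j, Finset.prod_mul_distrib, Finset.prod_const,
    Finset.card_univ, Fintype.card_fin, C_mul, C_pow]
  ring

lemma der_eq (hroots : F.roots = z ::ₘ Finset.univ.val.map fun j => z + (t j : ℂ) * u) (s : ℝ) :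
    u * (derivative F).eval (u * s + z) =
      F.leadingCoeff * u ^ (m + 1) * ((derivative (rp t)).eval s : ℝ) := by
  have h := congrArg derivative (comp_eq hroots)
  rw [derivative_comp, derivative_C_mul, derivative_map] at h
  have h2 := congrArg (eval (s : ℂ)) h
  simp only [derivative_add, derivative_C, add_zero, derivative_C_mul, derivative_X, mul_one,
    eval_mul, eval_C, eval_comp, eval_add, eval_X] at h2
  rw [h2]
  congr 1
  exact (eval_map_algebraMap ..).trans (by
    rw [← Complex.coe_algebraMap, aeval_algebraMap_apply_eq_algebraMap_eval])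

end

end Pool.Agent.V1148.Bor
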