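import Pool.Agent.V1148.Bor.D

set_option autoImplicit false
open Polynomial Filter

/-!
# Borcea's inequality for collinear zeros
-/

namespace Pool.Agent.V1148.Bor

section
variable {F : ℂ[X]} {m : ℕ} {z u : ℂ} {t : Fin m → ℝ}

lemma rp_der (s : ℝ) (hs : ∀ j, s - t j ≠ 0) :
    (derivative (rp t)).eval s = (∏ j, (s - t j)) * (1 + s * ∑ j, 1 / (s - t j)) := by
  classical
  have h1 : (derivative (∏ j, (X - C (t j)))).eval s = (∏ j, (s - t j)) * ∑ j, 1 / (s - t j) := by
    rw [derivative_prod_finset, eval_finset_sum, Finset.mul_sum]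
    apply Finset.sum_congr rfl
    intro j _
    rw [eval_mul, eval_prod, derivative_sub, derivative_X, derivative_C, sub_zero, eval_one,
      mul_one]
    simp only [eval_sub, eval_X, eval_C]
    rw [← Finset.mul_prod_erase Finset.univ (fun j => s - t j) (Finset.mem_univ j)]
    have := hs j
    field_simp
  rw [rp, derivative_mul, eval_add, eval_mul, eval_mul, h1, derivative_X, eval_one, eval_X,
    eval_prod]
  simp only [eval_sub, eval_X, eval_C]
  ring

lemma rp_der_zero : (derivative (rp t)).eval 0 = ∏ j, (0 - t j) := by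
  rw [rp, derivative_mul, eval_add, eval_mul, eval_mul, derivative_X, eval_one, eval_X, eval_prod]
  simp only [eval_sub, eval_X, eval_C]
  ring

variable (hn : 2 ≤ F.natDegree) (hu : ‖u‖ = 1)
  (hroots : F.roots = z ::ₘ Finset.univ.val.map fun j => z + (t j : ℂ) * u)

include hn hu hroots

lemma der_ne_zero {s : ℝ} (hs : |s| < near F z) : (derivative (rp t)).eval s ≠ 0 := by
  intro h
  have h1 := der_eq hroots s
  rw [h, Complex.ofReal_zero, mul_zero] at h1
  have hu0 : u ≠ 0 := by
    rintro rfl
    simp at hu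
  have h2 : (derivative F).eval (u * s + z) = 0 := (mul_eq_zero.1 h1).resolve_left hu0
  have h3 := near_le (z := z) ((mem_roots (der_ne hn)).2 h2)
  rw [show z - (u * s + z) = -(u * s) by ring, norm_neg, norm_mul, hu, one_mul,
    Complex.norm_real, Real.norm_eq_abs] at h3
  linarith

lemma t_large (hδ : 0 < near F z) (j : Fin m) : near F z ≤ |t j| := by
  by_contra hlt
  push Not at hlt
  have h0 : t j ≠ 0 := by
    intro h
    apply der_ne_zero hn hu hroots (s := 0) (by simpa using hδ)
    rw [rp_der_zero]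
    exact Finset.prod_eq_zero (Finset.mem_univ j) (by rw [h]; ring)
  have hz0 : (rp t).eval 0 = 0 := by rw [rp, eval_mul, eval_X, zero_mul]
  have hz1 : (rp t).eval (t j) = 0 := by
    rw [rp, eval_mul, eval_prod]
    have : ∏ i, eval (t j) (X - C (t i)) = 0 :=
      Finset.prod_eq_zero (Finset.mem_univ j) (by rw [eval_sub, eval_X, eval_C, sub_self])
    rw [this, mul_zero]
  rcases lt_or_gt_of_ne h0 with h | h
  · obtain ⟨c, hc, hc0⟩ := exists_deriv_eq_zero (f := fun x => (rp t).eval x) h
      (rp t).continuous.continuousOn (hz1.trans hz0.symm)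
    rw [Polynomial.deriv] at hc0
    refine der_ne_zero hn hu hroots ?_ hc0
    rw [abs_of_neg h] at hlt
    rw [abs_of_neg hc.2]
    linarith [hc.1]
  · obtain ⟨c, hc, hc0⟩ := exists_deriv_eq_zero (f := fun x => (rp t).eval x) h
      (rp t).continuous.continuousOn (hz0.trans hz1.symm)
    rw [Polynomial.deriv] at hc0
    refine der_ne_zero hn hu hroots ?_ hc0
    rw [abs_of_pos h] at hlt
    rw [abs_of_pos hc.1]
    linarith [hc.2]

lemma phi_pos (hδ : 0 < near F z) {s0 : ℝ} (hs0 : |s0| < near F z) :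
    0 < 1 + s0 * ∑ j, 1 / (s0 - t j) := by
  by_contra hle
  push Not at hle
  have hne : ∀ s : ℝ, |s| < near F z → ∀ j, s - t j ≠ 0 := by
    intro s hs j h
    have h1 := t_large hn hu hroots hδ j
    rw [← sub_eq_zero.1 h] at h1
    linarith
  have habs : ∀ s ∈ Set.uIcc 0 s0, |s| < near F z := by
    intro s hs
    rw [Set.mem_uIcc] at hs
    refine lt_of_le_of_lt ?_ hs0
    rcases hs with ⟨h1, h2⟩ | ⟨h1, h2⟩
    · rw [abs_of_nonneg h1]
      exact h2.trans (le_abs_self _)
    · rw [abs_of_nonpos h2]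
      have := neg_abs_le s0
      linarith
  have hcont : ContinuousOn (fun s : ℝ => 1 + s * ∑ j, 1 / (s - t j)) (Set.uIcc 0 s0) := by
    apply ContinuousOn.add continuousOn_const
    apply ContinuousOn.mul continuousOn_id
    apply continuousOn_finsetSum
    intro j _
    apply ContinuousOn.div continuousOn_const (continuousOn_id.sub continuousOn_const)
    intro s hs
    exact hne s (habs s hs) j
  have hivt := intermediate_value_uIcc hcont
  have h0 : (0:ℝ) ∈ Set.uIcc ((fun s : ℝ => 1 + s * ∑ j, 1 / (s - t j)) 0)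
      ((fun s : ℝ => 1 + s * ∑ j, 1 / (s - t j)) s0) := by
    rw [Set.mem_uIcc]
    right
    constructor
    · exact hle
    · simp
  obtain ⟨s, hs, hs1⟩ := hivt h0
  apply der_ne_zero hn hu hroots (habs s hs)
  rw [rp_der s (hne s (habs s hs))]
  rw [show (1 + s * ∑ j, 1 / (s - t j)) = 0 from hs1, mul_zero]

lemma real_bound (hm : 1 ≤ m) (c : ℝ) :
    ((m : ℝ) + 1) * near F z ≤ |c| + ∑ j, |t j - c| := by
  have hnn : 0 ≤ |c| + ∑ j, |t j - c| := by
    have := Finset.sum_nonneg (s := Finset.univ) fun (j : Fin m) _ => abs_nonneg (t j - c)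
    have := abs_nonneg c
    linarith
  have hm0 : (0:ℝ) < (m : ℝ) + 1 := by positivity
  rw [← le_div_iff₀' hm0]
  apply le_of_forall_lt_imp_le_of_dense
  intro ε hε
  rcases le_or_gt ε 0 with h0 | h0
  · exact h0.trans (by positivity)
  have hδ : 0 < near F z := h0.trans hε
  have hbig : ∀ j, ε < |t j| := fun j => hε.trans_le (t_large hn hu hroots hδ j)
  have hA := phi_pos hn hu hroots hδ (s0 := ε) (by rwa [abs_of_pos h0])
  have hB := phi_pos hn hu hroots hδ (s0 := -ε) (by rwa [abs_neg, abs_of_pos h0])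
  have key := main_real hm (fun j => t j / ε) (fun j => by
      rw [abs_div, abs_of_pos h0, lt_div_iff₀ h0, one_mul]
      exact hbig j)
    (by
      have h1 : ∀ j, 1 / (t j / ε - 1) = -(ε * (1 / (ε - t j))) := by
        intro j
        have h2 : ε - t j ≠ 0 := by
          intro h
          have := hbig j
          rw [← sub_eq_zero.1 h, abs_of_pos h0] at this
          linarith
        have h3 : t j - ε ≠ 0 := by
          intro h
          exact h2 (by linarith)
        have h4 : t j / ε - 1 = (t j - ε) / ε := by field_simp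
        rw [h4, one_div_div, show t j - ε = -(ε - t j) by ring, div_neg]
        ring
      rw [Finset.sum_congr rfl fun j _ => h1 j, Finset.sum_neg_distrib, ← Finset.mul_sum]
      linarith)
    (by
      have h1 : ∀ j, 1 / (-(t j / ε) - 1) = ε * (1 / (-ε - t j)) := by
        intro j
        have h4 : -(t j / ε) - 1 = (-ε - t j) / ε := by field_simp; ring
        rw [h4, one_div_div]
        ring
      rw [Finset.sum_congr rfl fun j _ => h1 j, ← Finset.mul_sum]
      linarith) (c / ε)
  rw [le_div_iff₀' hm0]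
  have h5 : |c / ε| = |c| / ε := by rw [abs_div, abs_of_pos h0]
  have h6 : ∀ j, |t j / ε - c / ε| = |t j - c| / ε := fun j => by
    rw [← sub_div, abs_div, abs_of_pos h0]
  rw [h5, Finset.sum_congr rfl fun j _ => h6 j, ← Finset.sum_div, ← add_div,
    le_div_iff₀ h0] at key
  exact key

lemma complex_bound (hm : 1 ≤ m) (c : ℂ) :
    near F z ≤ pmean 1 F c := by
  have hdeg : F.natDegree = m + 1 := by
    rw [(IsAlgClosed.splits F).natDegree_eq_card_roots, hroots]
    simp
  set r : ℝ := ((c - z) * (starRingEnd ℂ) u).re with hr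
  have huu : u * (starRingEnd ℂ) u = 1 := by
    rw [Complex.mul_conj, Complex.normSq_eq_norm_sq, hu]
    simp
  have hpt : ∀ s : ℝ, |s - r| ≤ ‖z + (s : ℂ) * u - c‖ := by
    intro s
    have h1 : s - r = ((z + (s : ℂ) * u - c) * (starRingEnd ℂ) u).re := by
      have h2 : (z + (s : ℂ) * u - c) * (starRingEnd ℂ) u =
          (s : ℂ) - (c - z) * (starRingEnd ℂ) u := by
        linear_combination (s : ℂ) * huu
      rw [h2, Complex.sub_re, Complex.ofReal_re]
    rw [h1]
    refine (Complex.abs_re_le_norm _).trans ?_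
    rw [norm_mul, Complex.norm_conj, hu, mul_one]
  have hb := real_bound hn hu hroots hm r
  unfold pmean
  rw [hdeg, hroots, Multiset.map_cons, Multiset.sum_cons, Multiset.map_map]
  have h3 : (Finset.univ.val.map ((fun z : ℂ => ‖z - c‖ ^ (1:ℝ)) ∘
      fun j => z + (t j : ℂ) * u)).sum = ∑ j, ‖z + (t j : ℂ) * u - c‖ := by
    change ∑ j, ‖z + (t j : ℂ) * u - c‖ ^ (1:ℝ) = _
    simp only [Real.rpow_one]
  rw [h3, div_one, Real.rpow_one, Real.rpow_one]
  have h4 := hpt 0
  rw [zero_sub, abs_neg, Complex.ofReal_zero, zero_mul, add_zero] at h4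
  have h5 : ∑ j, |t j - r| ≤ ∑ j, ‖z + (t j : ℂ) * u - c‖ := Finset.sum_le_sum fun j _ => hpt (t j)
  have hm0 : (0:ℝ) < (m : ℝ) + 1 := by positivity
  push_cast
  rw [one_div_mul_eq_div, le_div_iff₀' hm0]
  linarith

end

end Pool.Agent.V1148.Bor
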