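import Pool.Agent.V1148.Bor.E

set_option autoImplicit false
open Polynomial Filter

/-!
# Borcea's inequality for collinear zeros: conclusion
-/

namespace Pool.Agent.V1148.Bor

/-- All zeros of `F` are on one line of the complex plane. -/
def Collinear (F : ℂ[X]) : Prop := ∃ b v : ℂ, ∀ z ∈ F.roots, ∃ s : ℝ, z = b + s * v

lemma pmean_one_le {F : ℂ[X]} (hn : 0 < F.natDegree) {p : ℝ} (hp : 1 ≤ p) (c : ℂ) :
    pmean 1 F c ≤ pmean p F c := by
  obtain ⟨z, hz⟩ := exists_fin (F := F)
  have hs : ∀ s : ℝ, (F.roots.map (fun z => ‖z - c‖ ^ s)).sum = ∑ i, ‖z i - c‖ ^ s := by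
    intro s
    rw [hz, Multiset.map_map]
    rfl
  unfold pmean
  rw [hs, hs, div_one, Real.rpow_one]
  have hn0 : (0:ℝ) < (F.natDegree : ℝ) := by exact_mod_cast hn
  have h := Real.arith_mean_le_rpow_mean (Finset.univ : Finset (Fin F.natDegree))
    (fun _ => 1 / (F.natDegree : ℝ)) (fun i => ‖z i - c‖) (fun _ _ => by positivity)
    (by
      rw [Finset.sum_const, Finset.card_univ, Fintype.card_fin, nsmul_eq_mul]
      field_simp) (fun j _ => norm_nonneg _) hp
  rw [← Finset.mul_sum, ← Finset.mul_sum] at h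
  simpa only [Real.rpow_one] using h

lemma sigma_one_le {F : ℂ[X]} (hn : 0 < F.natDegree) {p : ℝ} (hp : 1 ≤ p) :
    sigma 1 F ≤ sigma p F :=
  le_ciInf fun c => (sigma_le 1 F c).trans (pmean_one_le hn hp c)

lemma unit_dir (v : ℂ) : ∃ (u : ℂ) (r : ℝ), ‖u‖ = 1 ∧ v = r * u := by
  by_cases hv : v = 0
  · exact ⟨1, 0, by simp, by simp [hv]⟩
  · refine ⟨v / ‖v‖, ‖v‖, ?_, ?_⟩
    · rw [norm_div, Complex.norm_real, norm_norm, div_self (norm_ne_zero_iff.2 hv)]
    · have : (‖v‖ : ℂ) ≠ 0 := by exact_mod_cast norm_ne_zero_iff.2 hv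
      field_simp

/-- **Borcea's inequality for collinear zeros**, exponent one. -/
theorem borcea_collinear {F : ℂ[X]} (hn : 2 ≤ F.natDegree) (hF : Collinear F) :
    hdist F ≤ sigma 1 F := by
  classical
  obtain ⟨z, hz, hzn⟩ := hdist_attained (exists_root hn)
  obtain ⟨b, v, hline⟩ := hF
  obtain ⟨u, r, hu, hv⟩ := unit_dir v
  rw [hzn]
  refine le_ciInf fun c => ?_
  obtain ⟨y, hy⟩ := exists_fin' (F.roots.erase z)
  obtain ⟨s0, hs0⟩ := hline z hz
  have hcons := Multiset.cons_erase hz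
  have hyl : ∀ j, ∃ s : ℝ, y j = b + s * v := by
    intro j
    apply hline
    rw [← hcons, Multiset.mem_cons]
    right
    rw [hy]
    exact Multiset.mem_map_of_mem _ (Finset.mem_univ j)
  choose s hs using hyl
  have hy2 : y = fun j => z + (((s j - s0) * r : ℝ) : ℂ) * u := by
    funext j
    rw [hs j, hs0, hv]
    push_cast
    ring
  have hcard : (F.roots.erase z).card + 1 = F.natDegree := by
    rw [(IsAlgClosed.splits F).natDegree_eq_card_roots]
    conv_rhs => rw [← hcons]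
    rw [Multiset.card_cons]
  have hroots : F.roots = z ::ₘ Finset.univ.val.map fun j =>
      z + (((s j - s0) * r : ℝ) : ℂ) * u := by
    rw [← hy2, ← hy, hcons]
  exact complex_bound hn hu hroots (by omega) c

end Pool.Agent.V1148.Bor
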