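import Pool.Agent.V1148.Bor.F

set_option autoImplicit false
open Polynomial Filter

/-!
# Borcea's inequality for zeros on a circle about their centroid
-/

namespace Pool.Agent.V1148.Bor

/-- All zeros of `F` are on one circle, centred at their centroid. -/
def CentredCircle (F : ℂ[X]) : Prop :=
  ∃ (c : ℂ) (R : ℝ), (∀ z ∈ F.roots, ‖z - c‖ = R) ∧ (F.roots.map (fun z => z - c)).sum = 0

lemma circle_h {F : ℂ[X]} (hn : 2 ≤ F.natDegree) {c : ℂ} {R : ℝ} (hR : 0 ≤ R)
    (hc : ∀ z ∈ F.roots, ‖z - c‖ = R) : hdist F ≤ R := by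
  obtain ⟨z, hz, hzn⟩ := hdist_attained (exists_root hn)
  rw [hzn]
  refine le_of_forall_pos_le_add fun ε hε => ?_
  rcases disc hn (c := c) (R := R + ε) (by linarith) (fun z hz => by rw [hc z hz]; linarith) hz
    with h | h
  · exact h.le
  · exact h.1

lemma circle_sigma {F : ℂ[X]} (hn : 2 ≤ F.natDegree) {c : ℂ} {R : ℝ} (hR : 0 ≤ R)
    (hc : ∀ z ∈ F.roots, ‖z - c‖ = R) (hs : (F.roots.map (fun z => z - c)).sum = 0) :
    R ≤ sigma 1 F := by
  refine le_ciInf fun c' => ?_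
  rcases hR.eq_or_lt with h0 | h0
  · rw [← h0]
    exact pmean_nonneg 1 F c'
  obtain ⟨z, hz⟩ := exists_fin (F := F)
  have hmem : ∀ i, z i ∈ F.roots := fun i => by
    rw [hz]
    exact Multiset.mem_map_of_mem _ (Finset.mem_univ i)
  have hsum : ∑ i, (z i - c) = 0 := by
    rw [hz, Multiset.map_map] at hs
    exact hs
  unfold pmean
  have h2 : (F.roots.map (fun z => ‖z - c'‖ ^ (1:ℝ))).sum = ∑ i, ‖z i - c'‖ := by
    rw [hz, Multiset.map_map]
    change ∑ i, ‖z i - c'‖ ^ (1:ℝ) = _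
    simp only [Real.rpow_one]
  rw [h2, div_one, Real.rpow_one]
  have hn0 : (0:ℝ) < (F.natDegree : ℝ) := by exact_mod_cast (by omega : 0 < F.natDegree)
  rw [one_div_mul_eq_div, le_div_iff₀' hn0]
  have hterm : ∀ i, R ^ 2 + ((c - c') * (starRingEnd ℂ) (z i - c)).re ≤ R * ‖z i - c'‖ := by
    intro i
    have h3 : (z i - c') * (starRingEnd ℂ) (z i - c) =
        (z i - c) * (starRingEnd ℂ) (z i - c) + (c - c') * (starRingEnd ℂ) (z i - c) := by ring
    have h4 : ((z i - c) * (starRingEnd ℂ) (z i - c)).re = R ^ 2 := by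
      rw [Complex.mul_conj, Complex.normSq_eq_norm_sq, hc _ (hmem i), Complex.ofReal_re]
    have h5 : ((z i - c') * (starRingEnd ℂ) (z i - c)).re ≤ R * ‖z i - c'‖ := by
      refine (Complex.re_le_norm _).trans ?_
      rw [norm_mul, Complex.norm_conj, hc _ (hmem i), mul_comm]
    rw [h3, Complex.add_re, h4] at h5
    exact h5
  have hsum2 := Finset.sum_le_sum fun (i : Fin F.natDegree) (_ : i ∈ Finset.univ) => hterm i
  have h6 : ∑ i, ((c - c') * (starRingEnd ℂ) (z i - c)).re = 0 := by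
    rw [← Complex.re_sum, ← Finset.mul_sum, ← map_sum, hsum, map_zero, mul_zero, Complex.zero_re]
  rw [Finset.sum_add_distrib, h6, Finset.sum_const, Finset.card_univ, Fintype.card_fin,
    nsmul_eq_mul, add_zero, ← Finset.mul_sum] at hsum2
  have h7 : R * (F.natDegree * R) ≤ R * ∑ i, ‖z i - c'‖ := by
    calc R * (F.natDegree * R) = F.natDegree * R ^ 2 := by ring
      _ ≤ _ := hsum2
  exact le_of_mul_le_mul_left h7 h0

theorem borcea_circle {F : ℂ[X]} (hn : 2 ≤ F.natDegree) (hF : CentredCircle F) :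
    hdist F ≤ sigma 1 F := by
  obtain ⟨c, R, hc, hs⟩ := hF
  obtain ⟨z, hz⟩ := exists_root hn
  have hR : 0 ≤ R := by
    rw [← hc z hz]
    exact norm_nonneg _
  exact (circle_h hn hR hc).trans (circle_sigma hn hR hc hs)

end Pool.Agent.V1148.Bor
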