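import Pool.Agent.V1148.Bor.F

set_option autoImplicit false
open Polynomial Filter Topology

/-!
# The `p`-variance is continuous in `p`; equivalence of the two conjectures
-/

namespace Pool.Agent.V1148.Bor

lemma sum_le_rpow {ι : Type*} (a : ι → ℝ) (ha : ∀ j, 0 ≤ a j) {p : ℝ} (hp : 0 < p)
    (hp1 : p ≤ 1) (s : Finset ι) : (∑ j ∈ s, a j) ^ p ≤ ∑ j ∈ s, a j ^ p := by
  classical
  induction s using Finset.induction_on with
  | empty => simp [Real.zero_rpow hp.ne']
  | insert i s hi ih =>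
    rw [Finset.sum_insert hi, Finset.sum_insert hi]
    exact (Real.rpow_add_le_add_rpow (ha i) (Finset.sum_nonneg fun j _ => ha j) hp.le hp1).trans
      (by linarith)

lemma pmean_eq {F : ℂ[X]} : ∃ z : Fin F.natDegree → ℂ, F.roots = Finset.univ.val.map z ∧
    ∀ (p : ℝ) (c : ℂ), pmean p F c = ((1 / (F.natDegree : ℝ)) * ∑ i, ‖z i - c‖ ^ p) ^ (1 / p) := by
  obtain ⟨z, hz⟩ := exists_fin (F := F)
  refine ⟨z, hz, fun p c => ?_⟩
  unfold pmean
  have hs : (F.roots.map (fun z => ‖z - c‖ ^ p)).sum = ∑ i, ‖z i - c‖ ^ p := by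
    rw [hz, Multiset.map_map]
    rfl
  rw [hs]

lemma pmean_mono {F : ℂ[X]} (hn : 0 < F.natDegree) {p q : ℝ} (hp : 0 < p) (hpq : p ≤ q) (c : ℂ) :
    pmean p F c ≤ pmean q F c := by
  obtain ⟨z, -, hz⟩ := pmean_eq (F := F)
  have hq : 0 < q := hp.trans_le hpq
  rw [hz, hz]
  have hn0 : (0:ℝ) < (F.natDegree : ℝ) := by exact_mod_cast hn
  have h := Real.arith_mean_le_rpow_mean (Finset.univ : Finset (Fin F.natDegree))
    (fun _ => 1 / (F.natDegree : ℝ)) (fun i => ‖z i - c‖ ^ p) (fun _ _ => by positivity)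
    (by
      rw [Finset.sum_const, Finset.card_univ, Fintype.card_fin, nsmul_eq_mul]
      field_simp) (fun j _ => by positivity) (p := q / p) (by rw [le_div_iff₀ hp]; linarith)
  have hpow : ∀ i, (‖z i - c‖ ^ p) ^ (q / p) = ‖z i - c‖ ^ q := fun i => by
    rw [← Real.rpow_mul (norm_nonneg _), mul_div_cancel₀ _ hp.ne']
  simp only [hpow] at h
  rw [← Finset.mul_sum, ← Finset.mul_sum] at h
  have hB0 : 0 ≤ (1 / (F.natDegree : ℝ)) * ∑ i, ‖z i - c‖ ^ q := by positivity
  have hA0 : 0 ≤ (1 / (F.natDegree : ℝ)) * ∑ i, ‖z i - c‖ ^ p := by positivity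
  have h2 := Real.rpow_le_rpow hA0 h (by positivity : 0 ≤ 1 / p)
  rw [← Real.rpow_mul hB0] at h2
  have h3 : 1 / (q / p) * (1 / p) = 1 / q := by field_simp
  rwa [h3] at h2

lemma pmean_le {F : ℂ[X]} (hn : 0 < F.natDegree) {p q : ℝ} (hp : 0 < p) (hpq : p ≤ q) (c : ℂ) :
    pmean q F c ≤ (F.natDegree : ℝ) ^ (1 / p - 1 / q) * pmean p F c := by
  obtain ⟨z, -, hz⟩ := pmean_eq (F := F)
  have hq : 0 < q := hp.trans_le hpq
  rw [hz, hz]
  have hn0 : (0:ℝ) < (F.natDegree : ℝ) := by exact_mod_cast hn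
  have hA0 : 0 ≤ ∑ i, ‖z i - c‖ ^ p := by positivity
  have hB0 : 0 ≤ ∑ i, ‖z i - c‖ ^ q := by positivity
  have h := sum_le_rpow (fun i => ‖z i - c‖ ^ q) (fun j => by positivity) (p := p / q)
    (by positivity) (by rw [div_le_one hq]; exact hpq) Finset.univ
  have hpow : ∀ i, (‖z i - c‖ ^ q) ^ (p / q) = ‖z i - c‖ ^ p := fun i => by
    rw [← Real.rpow_mul (norm_nonneg _), mul_div_cancel₀ _ hq.ne']
  simp only [hpow] at h
  have h2 := Real.rpow_le_rpow (Real.rpow_nonneg hB0 _) h (by positivity : 0 ≤ 1 / p)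
  rw [← Real.rpow_mul hB0] at h2
  have h3 : p / q * (1 / p) = 1 / q := by field_simp
  rw [h3] at h2
  rw [one_div_mul_eq_div, one_div_mul_eq_div, Real.div_rpow hB0 hn0.le, Real.div_rpow hA0 hn0.le,
    Real.rpow_sub hn0]
  have e1 : 0 < (F.natDegree : ℝ) ^ (1 / p) := Real.rpow_pos_of_pos hn0 _
  have e2 : 0 < (F.natDegree : ℝ) ^ (1 / q) := Real.rpow_pos_of_pos hn0 _
  calc (∑ i, ‖z i - c‖ ^ q) ^ (1 / q) / (F.natDegree : ℝ) ^ (1 / q)
      ≤ (∑ i, ‖z i - c‖ ^ p) ^ (1 / p) / (F.natDegree : ℝ) ^ (1 / q) := by gcongr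
    _ = _ := by field_simp

lemma sigma_mono {F : ℂ[X]} (hn : 0 < F.natDegree) {p q : ℝ} (hp : 0 < p) (hpq : p ≤ q) :
    sigma p F ≤ sigma q F :=
  le_ciInf fun c => (sigma_le p F c).trans (pmean_mono hn hp hpq c)

lemma sigma_le_mul {F : ℂ[X]} (hn : 2 ≤ F.natDegree) {p q : ℝ} (hp : 0 < p) (hpq : p ≤ q) :
    sigma q F ≤ (F.natDegree : ℝ) ^ (1 / p - 1 / q) * sigma p F := by
  obtain ⟨c, hc⟩ := exists_min hp (exists_root hn)
  rw [hc]
  exact (sigma_le q F c).trans (pmean_le (by omega) hp hpq c)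

lemma sigma_cont {F : ℂ[X]} (hn : 2 ≤ F.natDegree) {p : ℝ} (hp : 0 < p) :
    ContinuousAt (fun p => sigma p F) p := by
  have hn0 : (0:ℝ) < (F.natDegree : ℝ) := by exact_mod_cast (by omega : 0 < F.natDegree)
  set g : ℝ → ℝ := fun s => (F.natDegree : ℝ) ^ (1 / p - 1 / s) with hg
  have hgc : ContinuousAt g p := by
    apply ContinuousAt.rpow continuousAt_const _ (Or.inl hn0.ne')
    exact continuousAt_const.sub (continuousAt_const.div continuousAt_id hp.ne')
  have hgp : g p = 1 := by rw [hg]; simp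
  have hgt : Tendsto g (𝓝 p) (𝓝 1) := by
    have := hgc.tendsto
    rwa [hgp] at this
  have hmin : Tendsto (fun s => min 1 (g s)) (𝓝 p) (𝓝 (min 1 1)) := tendsto_const_nhds.min hgt
  have hmax : Tendsto (fun s => max 1 (g s)) (𝓝 p) (𝓝 (max 1 1)) := tendsto_const_nhds.max hgt
  have h1 : Tendsto (fun s => sigma p F * min 1 (g s)) (𝓝 p) (𝓝 (sigma p F)) := by
    have h := (tendsto_const_nhds (x := sigma p F)).mul hmin
    rwa [min_self, mul_one] at h
  have h2 : Tendsto (fun s => sigma p F * max 1 (g s)) (𝓝 p) (𝓝 (sigma p F)) := by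
    have h := (tendsto_const_nhds (x := sigma p F)).mul hmax
    rwa [max_self, mul_one] at h
  have hσ0 : ∀ s, 0 ≤ sigma s F := fun s => le_ciInf fun c => pmean_nonneg s F c
  have hpos : ∀ᶠ s in 𝓝 p, 0 < s := eventually_gt_nhds hp
  apply tendsto_of_tendsto_of_tendsto_of_le_of_le' h1 h2
  · filter_upwards [hpos] with s hs
    rcases le_total p s with h | h
    · calc sigma p F * min 1 (g s) ≤ sigma p F * 1 :=
            mul_le_mul_of_nonneg_left (min_le_left _ _) (hσ0 p)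
        _ ≤ sigma s F := by rw [mul_one]; exact sigma_mono (by omega) hp h
    · have h3 := sigma_le_mul hn hs h
      have h4 : sigma p F * g s ≤ sigma s F := by
        have e : (F.natDegree : ℝ) ^ (1 / s - 1 / p) * g s = 1 := by
          rw [hg]
          dsimp only
          rw [← Real.rpow_add hn0]
          simp
        calc sigma p F * g s ≤ ((F.natDegree : ℝ) ^ (1 / s - 1 / p) * sigma s F) * g s :=
              mul_le_mul_of_nonneg_right h3 (by positivity)
          _ = sigma s F * ((F.natDegree : ℝ) ^ (1 / s - 1 / p) * g s) := by ring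
          _ = sigma s F := by rw [e, mul_one]
      exact (mul_le_mul_of_nonneg_left (min_le_right _ _) (hσ0 p)).trans h4
  · filter_upwards [hpos] with s hs
    rcases le_total p s with h | h
    · have h3 := sigma_le_mul hn hp h
      calc sigma s F ≤ g s * sigma p F := h3
        _ = sigma p F * g s := by ring
        _ ≤ _ := mul_le_mul_of_nonneg_left (le_max_right _ _) (hσ0 p)
    · calc sigma s F ≤ sigma p F := sigma_mono (by omega) hs h
        _ = sigma p F * 1 := (mul_one _).symm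
        _ ≤ _ := mul_le_mul_of_nonneg_left (le_max_left _ _) (hσ0 p)

end Pool.Agent.V1148.Bor
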