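import Pool.Agent.V1148.Bor.H

set_option autoImplicit false
open Polynomial Filter Topology

/-!
# Equivalence of the two conjectures, polynomial by polynomial
-/

namespace Pool.Agent.V1148.Bor

lemma norm_le_pmean {F : ℂ[X]} (hn : 0 < F.natDegree) {p : ℝ} (hp : 0 < p) (c : ℂ) {w : ℂ}
    (hw : w ∈ F.roots) : ‖w - c‖ ≤ (F.natDegree : ℝ) ^ (1 / p) * pmean p F c := by
  obtain ⟨z, hr, hz⟩ := pmean_eq (F := F)
  rw [hz]
  have hn0 : (0:ℝ) < (F.natDegree : ℝ) := by exact_mod_cast hn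
  rw [hr, Multiset.mem_map] at hw
  obtain ⟨i, -, rfl⟩ := hw
  have hA0 : 0 ≤ ∑ i, ‖z i - c‖ ^ p := by positivity
  have h1 : ‖z i - c‖ ^ p ≤ ∑ i, ‖z i - c‖ ^ p :=
    Finset.single_le_sum (f := fun i => ‖z i - c‖ ^ p) (fun j _ => by positivity)
      (Finset.mem_univ i)
  have h2 := Real.rpow_le_rpow (by positivity) h1 (by positivity : 0 ≤ 1 / p)
  rw [← Real.rpow_mul (norm_nonneg _), mul_one_div_cancel hp.ne', Real.rpow_one] at h2
  rw [one_div_mul_eq_div, Real.div_rpow hA0 hn0.le]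
  have e1 : 0 < (F.natDegree : ℝ) ^ (1 / p) := Real.rpow_pos_of_pos hn0 _
  rwa [mul_div_cancel₀ _ e1.ne']

/-- If `σ_P < h` for all large `P` then `F` is pure (a case of Sendov's theorem). -/
lemma exists_large {F : ℂ[X]} (hn : 2 ≤ F.natDegree) (hF : ¬ IsPure F) (q : ℝ) :
    ∃ P, q < P ∧ 0 < P ∧ hdist F ≤ sigma P F := by
  by_contra hcon
  push Not at hcon
  apply hF
  have hn0 : (0:ℝ) < (F.natDegree : ℝ) := by exact_mod_cast (by omega : 0 < F.natDegree)
  obtain ⟨N0, hN0⟩ := exists_nat_gt (max q 0)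
  have hlt : ∀ N : ℕ, sigma ((N + N0 : ℕ) : ℝ) F < hdist F := by
    intro N
    have h1 : (N0 : ℝ) ≤ ((N + N0 : ℕ) : ℝ) := by exact_mod_cast Nat.le_add_left N0 N
    have h2 := lt_of_le_of_lt (le_max_left q 0) hN0
    have h3 := lt_of_le_of_lt (le_max_right q 0) hN0
    exact hcon _ (by linarith) (by linarith)
  have hpos : ∀ N : ℕ, (0:ℝ) < ((N + N0 : ℕ) : ℝ) := by
    intro N
    have h1 : (N0 : ℝ) ≤ ((N + N0 : ℕ) : ℝ) := by exact_mod_cast Nat.le_add_left N0 N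
    have h3 := lt_of_le_of_lt (le_max_right q 0) hN0
    linarith
  have hex : ∀ N : ℕ, ∃ c : ℂ, ∀ w ∈ F.roots,
      ‖w - c‖ ≤ (F.natDegree : ℝ) ^ (1 / ((N + N0 : ℕ) : ℝ)) * hdist F := by
    intro N
    obtain ⟨c, hc⟩ := exists_min (hpos N) (exists_root hn)
    refine ⟨c, fun w hw => (norm_le_pmean (by omega) (hpos N) c hw).trans ?_⟩
    rw [← hc]
    exact mul_le_mul_of_nonneg_left (hlt N).le (by positivity)
  choose c hc using hex
  obtain ⟨z, hz, hzn⟩ := hdist_attained (exists_root hn)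
  have hlim0 : Tendsto (fun N : ℕ => (F.natDegree : ℝ) ^ (1 / ((N + N0 : ℕ) : ℝ)) * hdist F)
      atTop (𝓝 (hdist F)) := by
    have h1 : Tendsto (fun N : ℕ => 1 / ((N + N0 : ℕ) : ℝ)) atTop (𝓝 0) :=
      (tendsto_one_div_atTop_nhds_zero_nat (𝕜 := ℝ)).comp (tendsto_add_atTop_nat N0)
    have h2 : Tendsto (fun N : ℕ => (F.natDegree : ℝ) ^ (1 / ((N + N0 : ℕ) : ℝ))) atTop
        (𝓝 ((F.natDegree : ℝ) ^ (0:ℝ))) :=
      ((Real.continuousAt_const_rpow hn0.ne').tendsto).comp h1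
    rw [Real.rpow_zero] at h2
    have h3 := h2.mul_const (hdist F)
    rwa [one_mul] at h3
  obtain ⟨B, hB⟩ := hlim0.bddAbove_range
  have hmem : ∀ N, c N ∈ Metric.closedBall z B := by
    intro N
    rw [Metric.mem_closedBall, dist_eq_norm, norm_sub_rev]
    exact (hc N z hz).trans (hB ⟨N, rfl⟩)
  obtain ⟨c0, -, φ, hφ, hφl⟩ := (isCompact_closedBall z B).tendsto_subseq hmem
  have hle : ∀ w ∈ F.roots, ‖w - c0‖ ≤ hdist F := by
    intro w hw
    have h1 : Tendsto (fun N => ‖w - c (φ N)‖) atTop (𝓝 ‖w - c0‖) :=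
      (tendsto_const_nhds.sub hφl).norm
    exact le_of_tendsto_of_tendsto' h1 (hlim0.comp hφ.tendsto_atTop) fun N => hc (φ N) w hw
  have hR : 0 ≤ hdist F := (norm_nonneg _).trans (hle z hz)
  exact pure_of_disc hn hR hle hz (by rw [← hzn])

/-- For `F` not of the form `a (z - c)^n - b`: the equality `h(F, F') = σ_p(F)` holds for no `p > q`
if and only if `h(F, F') ≤ σ_q(F)`. -/
theorem equivalence {F : ℂ[X]} (hn : 2 ≤ F.natDegree) (hF : ¬ IsPure F) {q : ℝ} (hq : 0 < q) :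
    (∀ p : ℝ, q < p → hdist F ≠ sigma p F) ↔ hdist F ≤ sigma q F := by
  constructor
  · intro h
    by_contra hlt
    push Not at hlt
    obtain ⟨P, hqP, hP0, hP⟩ := exists_large hn hF q
    have hcont : ContinuousOn (fun p => sigma p F) (Set.Icc q P) := fun p hp =>
      (sigma_cont hn (hq.trans_le hp.1)).continuousWithinAt
    have hivt := intermediate_value_Icc hqP.le hcont
    obtain ⟨p, hp, hpe⟩ := hivt ⟨hlt.le, hP⟩
    have hpe' : sigma p F = hdist F := hpe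
    have hne : q ≠ p := by
      rintro rfl
      rw [hpe'] at hlt
      exact lt_irrefl _ hlt
    exact h p (lt_of_le_of_ne hp.1 hne) hpe'.symm
  · intro h p hqp hE
    exact hF (equality hn hq hqp h hE)

end Pool.Agent.V1148.Bor
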