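import Pool.Agent.V1148.Bor.G
import Pool.Agent.V1148.Bor.I

set_option autoImplicit false
open Polynomial Filter Topology

namespace Pool.Agent.V1148.Bor

lemma pure_circle {F : ℂ[X]} (hn : 2 ≤ F.natDegree) (hF : IsPure F) : CentredCircle F := by
  obtain ⟨a, b, c, ha, hFe⟩ := hF
  have h0 : F ≠ 0 := by rintro rfl; simp at hn
  have hroot : ∀ z ∈ F.roots, a * (z - c) ^ F.natDegree = b := by
    intro z hz
    have h1 := (mem_roots h0).1 hz
    rw [IsRoot.def] at h1
    rw [hFe] at h1
    simp only [eval_sub, eval_mul, eval_C, eval_pow, eval_X] at h1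
    exact sub_eq_zero.1 h1
  obtain ⟨z0, hz0⟩ := exists_root hn
  refine ⟨c, ‖z0 - c‖, fun z hz => ?_, ?_⟩
  · have h1 := (hroot z hz).trans (hroot z0 hz0).symm
    have h2 := mul_left_cancel₀ ha h1
    have h3 := congrArg norm h2
    rw [norm_pow, norm_pow] at h3
    exact (pow_left_inj₀ (norm_nonneg _) (norm_nonneg _) (by omega)).1 h3
  · -- Vieta
    have hsum : F.roots.sum = F.natDegree * c := by
      have h1 := (IsAlgClosed.splits F).nextCoeff_eq_neg_sum_roots_mul_leadingCoeff
      have hco : ∀ k, F.coeff k =
          a * ((X - C c) ^ F.natDegree : ℂ[X]).coeff k - (C b : ℂ[X]).coeff k := by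
        intro k
        have h7 := congrArg (fun P : ℂ[X] => P.coeff k) hFe
        simp only [coeff_sub, coeff_C_mul] at h7
        exact h7
      have hlc : F.leadingCoeff = a := by
        rw [leadingCoeff, hco, coeff_C, if_neg (by omega), sub_zero]
        have h2 : ((X - C c) ^ F.natDegree : ℂ[X]).Monic := (monic_X_sub_C c).pow _
        have h3 : ((X - C c) ^ F.natDegree : ℂ[X]).natDegree = F.natDegree := by
          rw [(monic_X_sub_C c).natDegree_pow, natDegree_X_sub_C, mul_one]
        have h4 := h2.coeff_natDegree
        rw [h3] at h4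
        rw [h4, mul_one]
      have hnc : F.nextCoeff = a * (-(F.natDegree * c)) := by
        rw [nextCoeff_of_natDegree_pos (by omega), hco, coeff_C, if_neg (by omega), sub_zero]
        have h3 : ((X - C c) ^ F.natDegree : ℂ[X]).natDegree = F.natDegree := by
          rw [(monic_X_sub_C c).natDegree_pow, natDegree_X_sub_C, mul_one]
        have h5 := (monic_X_sub_C c).nextCoeff_pow F.natDegree
        rw [nextCoeff_of_natDegree_pos (by rw [h3]; omega), h3, nextCoeff_X_sub_C] at h5
        rw [h5]
        simp
      rw [hnc, hlc] at h1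
      have h6 : a * (F.natDegree * c) = a * F.roots.sum := by linear_combination (-1) * h1
      exact (mul_left_cancel₀ ha h6).symm
    have hcard := (IsAlgClosed.splits F).natDegree_eq_card_roots
    rw [Multiset.sum_map_sub, Multiset.map_id', Multiset.map_const', Multiset.sum_replicate, hsum,
      ← hcard]
    simp

end Pool.Agent.V1148.Bor
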