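import Pool.Agent.V1148.Bor.J

set_option autoImplicit false
open Polynomial Filter Topology

/-!
# The equivalence for every polynomial
-/

namespace Pool.Agent.V1148.Bor

lemma pure_eq {F : ℂ[X]} (hn : 2 ≤ F.natDegree) (hF : IsPure F) {p : ℝ} (hp : 1 ≤ p) :
    hdist F = sigma p F := by
  have hle : hdist F ≤ sigma p F :=
    (borcea_circle hn (pure_circle hn hF)).trans (sigma_one_le (by omega) hp)
  refine le_antisymm hle ?_
  obtain ⟨a, b, c, ha, hFe⟩ := hF
  have h0 : F ≠ 0 := by rintro rfl; simp at hn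
  have hroot : ∀ z ∈ F.roots, a * (z - c) ^ F.natDegree = b := by
    intro z hz
    have h1 := (mem_roots h0).1 hz
    rw [IsRoot.def] at h1
    rw [hFe] at h1
    simp only [eval_sub, eval_mul, eval_C, eval_pow, eval_X] at h1
    exact sub_eq_zero.1 h1
  obtain ⟨z0, hz0⟩ := exists_root hn
  have hcirc : ∀ z ∈ F.roots, ‖z - c‖ = ‖z0 - c‖ := fun z hz => by
    have h1 := (hroot z hz).trans (hroot z0 hz0).symm
    have h2 := mul_left_cancel₀ ha h1
    have h3 := congrArg norm h2
    rw [norm_pow, norm_pow] at h3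
    exact (pow_left_inj₀ (norm_nonneg _) (norm_nonneg _) (by omega)).1 h3
  have hder : ∀ w ∈ (derivative F).roots, w = c := by
    intro w hw
    have h1 := (mem_roots (der_ne hn)).1 hw
    rw [IsRoot.def] at h1
    rw [hFe] at h1
    simp only [derivative_sub, derivative_C, sub_zero, derivative_mul, zero_mul, zero_add,
      derivative_pow, derivative_X, eval_mul, eval_pow, eval_sub, eval_X, eval_C,
      mul_one] at h1
    rcases mul_eq_zero.1 h1 with h2 | h2
    · exact absurd h2 ha
    · rcases mul_eq_zero.1 h2 with h3 | h3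
      · exfalso
        have : (F.natDegree : ℂ) ≠ 0 := by exact_mod_cast (by omega : F.natDegree ≠ 0)
        apply this
        simpa using h3
      · exact sub_eq_zero.1 ((pow_eq_zero_iff (by omega)).1 h3)
  have hnear : ‖z0 - c‖ ≤ near F z0 := by
    unfold near
    obtain ⟨w, hw⟩ : ∃ w, (derivative F).IsRoot w := by
      refine ⟨c, ?_⟩
      rw [IsRoot.def, hFe]
      simp only [derivative_sub, derivative_C, sub_zero, derivative_mul, zero_mul, zero_add,
        derivative_pow, derivative_X, eval_mul, eval_pow, eval_sub, eval_X, eval_C, sub_self,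
        mul_one]
      rw [zero_pow (by omega)]
      simp
    refine le_csInf ⟨_, w, (mem_roots (der_ne hn)).2 hw, rfl⟩ ?_
    rintro _ ⟨w', hw', rfl⟩
    rw [hder w' hw']
  have hsup : near F z0 ≤ hdist F := by
    have hfin : {d : ℝ | ∃ z ∈ F.roots, d = near F z}.Finite := by
      apply (F.roots.toFinset.image (near F)).finite_toSet.subset
      rintro _ ⟨z, hz, rfl⟩
      rw [Finset.mem_coe, Finset.mem_image]
      exact ⟨z, Multiset.mem_toFinset.2 hz, rfl⟩
    exact le_csSup hfin.bddAbove ⟨z0, hz0, rfl⟩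
  have hp0 : 0 < p := by linarith
  have hpm : pmean p F c ≤ ‖z0 - c‖ := by
    obtain ⟨z, hr, hz⟩ := pmean_eq (F := F)
    have hzc : ∀ i, ‖z i - c‖ = ‖z0 - c‖ := fun i => hcirc _ (by
      rw [hr]
      exact Multiset.mem_map_of_mem _ (Finset.mem_univ i))
    rw [hz]
    simp only [hzc]
    have hn0 : (0:ℝ) < (F.natDegree : ℝ) := by exact_mod_cast (by omega : 0 < F.natDegree)
    rw [Finset.sum_const, Finset.card_univ, Fintype.card_fin, nsmul_eq_mul, ← mul_assoc,
      one_div_mul_cancel hn0.ne', one_mul, ← Real.rpow_mul (norm_nonneg _),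
      mul_one_div_cancel hp0.ne', Real.rpow_one]
  exact (sigma_le p F c).trans (hpm.trans (hnear.trans hsup))

/-- The characterisation of equality for all exponents `p > q` is equivalent to the inequality for
all exponents `p ≥ q`. -/
theorem equivalence' {F : ℂ[X]} (hn : 2 ≤ F.natDegree) {q : ℝ} (hq : 1 ≤ q) :
    (∀ p : ℝ, q < p → (hdist F = sigma p F ↔ IsPure F)) ↔
      ∀ p : ℝ, q ≤ p → hdist F ≤ sigma p F := by
  by_cases hF : IsPure F
  · exact ⟨fun _ p hp => (pure_eq hn hF (hq.trans hp)).le, fun _ p hp =>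
      ⟨fun _ => hF, fun _ => pure_eq hn hF (hq.trans hp.le)⟩⟩
  · have hq0 : 0 < q := by linarith
    have key := equivalence hn hF hq0
    constructor
    · intro h p hp
      have h1 := key.1 fun p' hp' he => hF ((h p' hp').1 he)
      exact h1.trans (sigma_mono (by omega) hq0 hp)
    · intro h p hp
      exact ⟨fun he => absurd he (key.2 (h q le_rfl) p hp), fun hp' => absurd hp' hF⟩

end Pool.Agent.V1148.Bor
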